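import Mathlib

set_option autoImplicit false

open Finset Module

namespace B5D39

lemma card_GL_ge (k : ℕ) : 2 ^ (k * (k - 1)) ≤ Nat.card (GL (Fin k) (ZMod 2)) := by
  rw [Matrix.card_GL_field]
  have hc : Fintype.card (ZMod 2) = 2 := ZMod.card 2
  rw [hc]
  calc 2 ^ (k * (k - 1)) = ∏ _i : Fin k, 2 ^ (k - 1) := by
        rw [Finset.prod_const, Finset.card_univ, Fintype.card_fin, ← pow_mul, mul_comm]
    _ ≤ _ := by
        apply Finset.prod_le_prod'
        intro i _
        have hi := i.2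
        have h1 : (2 : ℕ) ^ (i : ℕ) ≤ 2 ^ (k - 1) := Nat.pow_le_pow_right (by norm_num) (by omega)
        have h2 : (2 : ℕ) ^ k = 2 * 2 ^ (k - 1) := by
          rw [← pow_succ']
          congr 1
          omega
        omega

lemma card_mat (a b : ℕ) : Nat.card (Matrix (Fin a) (Fin b) (ZMod 2)) = 2 ^ (a * b) := by
  have : Nat.card (Matrix (Fin a) (Fin b) (ZMod 2)) = Nat.card (Fin a → Fin b → ZMod 2) := rfl
  rw [this, Nat.card_fun, Nat.card_fun]
  simp [ZMod.card, ← pow_mul, mul_comm]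

lemma leftInv {a b : ℕ} (P : Matrix (Fin a) (Fin b) (ZMod 2))
    (h : LinearIndependent (ZMod 2) P.col) : ∃ Q : Matrix (Fin b) (Fin a) (ZMod 2), Q * P = 1 := by
  have hinj : Function.Injective P.mulVec := Matrix.mulVec_injective_iff.2 h
  have hk : LinearMap.ker P.mulVecLin = ⊥ := LinearMap.ker_eq_bot.2 hinj
  obtain ⟨g, hg⟩ := P.mulVecLin.exists_leftInverse_of_injective hk
  refine ⟨LinearMap.toMatrix' g, ?_⟩
  have := congrArg LinearMap.toMatrix' hg
  rw [LinearMap.toMatrix'_comp, LinearMap.toMatrix'_id] at this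
  rwa [← Matrix.toLin'_apply', LinearMap.toMatrix'_toLin'] at this

theorem count {s d k n : ℕ}
    (bad : ∀ π : Fin s → Matrix (Fin d) (Fin n) (ZMod 2),
      ∃ (M : Matrix (Fin n) (Fin d) (ZMod 2)) (L : Matrix (Fin d) (Fin n) (ZMod 2))
        (N : Fin s → Matrix (Fin d) (Fin k) (ZMod 2)) (L' : Fin s → Matrix (Fin k) (Fin d) (ZMod 2)),
        L * M = 1 ∧ ∀ i, L' i * N i = 1 ∧ π i * M * N i = 0) :
    d * (d - 1) + s * (k * (k - 1)) ≤ n * d := by
  classical
  choose M L N L' hL hi using bad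
  let Linv : Matrix (Fin n) (Fin k) (ZMod 2) → Matrix (Fin k) (Fin n) (ZMod 2) :=
    fun P => if h : ∃ Q : Matrix (Fin k) (Fin n) (ZMod 2), Q * P = 1 then h.choose else 0
  have hLinv : ∀ P : Matrix (Fin n) (Fin k) (ZMod 2),
      (∃ Q : Matrix (Fin k) (Fin n) (ZMod 2), Q * P = 1) → Linv P * P = 1 := by
    intro P h
    simp only [Linv]
    rw [dif_pos h]
    exact h.choose_spec
  let Φ : (Fin s → Matrix (Fin d) (Fin n) (ZMod 2)) × GL (Fin d) (ZMod 2) ×
      (Fin s → GL (Fin k) (ZMod 2)) × (Fin s → Matrix (Fin d) (Fin k) (ZMod 2)) →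
      Matrix (Fin n) (Fin d) (ZMod 2) × (Fin s → Matrix (Fin d) (Fin k) (ZMod 2)) ×
        (Fin s → Matrix (Fin d) (Fin n) (ZMod 2)) :=
    fun x => (M x.1 * (x.2.1 : Matrix (Fin d) (Fin d) (ZMod 2)),
      fun i => ((x.2.1⁻¹ : GL (Fin d) (ZMod 2)) : Matrix (Fin d) (Fin d) (ZMod 2)) *
        (N x.1 i * (x.2.2.1 i : Matrix (Fin k) (Fin k) (ZMod 2))),
      fun i => x.1 i + x.2.2.2 i *
        Linv (M x.1 * (N x.1 i * (x.2.2.1 i : Matrix (Fin k) (Fin k) (ZMod 2)))))
  have hΦ : Function.Injective Φ := by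
    rintro ⟨π, g, h, Q⟩ ⟨π', g', h', Q'⟩ heq
    have h1 : M π * (g : Matrix (Fin d) (Fin d) (ZMod 2)) =
        M π' * (g' : Matrix (Fin d) (Fin d) (ZMod 2)) := congrArg (fun x => x.1) heq
    have h2 : ∀ i, ((g⁻¹ : GL (Fin d) (ZMod 2)) : Matrix (Fin d) (Fin d) (ZMod 2)) *
        (N π i * (h i : Matrix (Fin k) (Fin k) (ZMod 2))) =
        ((g'⁻¹ : GL (Fin d) (ZMod 2)) : Matrix (Fin d) (Fin d) (ZMod 2)) *
        (N π' i * (h' i : Matrix (Fin k) (Fin k) (ZMod 2))) := fun i =>
      congrFun (congrArg (fun x => x.2.1) heq) i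
    have h3 : ∀ i, π i + Q i * Linv (M π * (N π i * (h i : Matrix (Fin k) (Fin k) (ZMod 2)))) =
        π' i + Q' i * Linv (M π' * (N π' i * (h' i : Matrix (Fin k) (Fin k) (ZMod 2)))) := fun i =>
      congrFun (congrArg (fun x => x.2.2) heq) i
    have hgg : ∀ u : GL (Fin d) (ZMod 2), (u : Matrix (Fin d) (Fin d) (ZMod 2)) *
        ((u⁻¹ : GL (Fin d) (ZMod 2)) : Matrix (Fin d) (Fin d) (ZMod 2)) = 1 := fun u =>
      Units.mul_inv u
    have hP : ∀ i, M π * (N π i * (h i : Matrix (Fin k) (Fin k) (ZMod 2))) =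
        M π' * (N π' i * (h' i : Matrix (Fin k) (Fin k) (ZMod 2))) := by
      intro i
      calc M π * (N π i * (h i : Matrix (Fin k) (Fin k) (ZMod 2)))
          = (M π * (g : Matrix (Fin d) (Fin d) (ZMod 2))) *
            (((g⁻¹ : GL (Fin d) (ZMod 2)) : Matrix (Fin d) (Fin d) (ZMod 2)) *
              (N π i * (h i : Matrix (Fin k) (Fin k) (ZMod 2)))) := by
            rw [Matrix.mul_assoc, ← Matrix.mul_assoc (g : Matrix (Fin d) (Fin d) (ZMod 2)), hgg,
              Matrix.one_mul]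
        _ = (M π' * (g' : Matrix (Fin d) (Fin d) (ZMod 2))) *
            (((g'⁻¹ : GL (Fin d) (ZMod 2)) : Matrix (Fin d) (Fin d) (ZMod 2)) *
              (N π' i * (h' i : Matrix (Fin k) (Fin k) (ZMod 2)))) := by rw [h1, h2 i]
        _ = _ := by
            rw [Matrix.mul_assoc, ← Matrix.mul_assoc (g' : Matrix (Fin d) (Fin d) (ZMod 2)), hgg,
              Matrix.one_mul]
    have hinv : ∀ i, ∃ R : Matrix (Fin k) (Fin n) (ZMod 2),
        R * (M π * (N π i * (h i : Matrix (Fin k) (Fin k) (ZMod 2)))) = 1 := by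
      intro i
      refine ⟨((h i)⁻¹ : GL (Fin k) (ZMod 2)).1 * (L' π i * L π), ?_⟩
      calc ((h i)⁻¹ : GL (Fin k) (ZMod 2)).1 * (L' π i * L π) *
            (M π * (N π i * (h i : Matrix (Fin k) (Fin k) (ZMod 2))))
          = ((h i)⁻¹ : GL (Fin k) (ZMod 2)).1 * ((L' π i * ((L π * M π) * N π i)) *
              (h i : Matrix (Fin k) (Fin k) (ZMod 2))) := by
            simp only [Matrix.mul_assoc]
        _ = ((h i)⁻¹ : GL (Fin k) (ZMod 2)).1 * (h i : Matrix (Fin k) (Fin k) (ZMod 2)) := by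
            rw [hL, Matrix.one_mul, (hi π i).1, Matrix.one_mul]
        _ = 1 := Units.inv_mul (h i)
    have hQ : ∀ i, Q i = Q' i := by
      intro i
      have e1 := congrArg (fun X => X *
        (M π * (N π i * (h i : Matrix (Fin k) (Fin k) (ZMod 2))))) (h3 i)
      beta_reduce at e1
      rw [← hP i, Matrix.add_mul, Matrix.add_mul, Matrix.mul_assoc (Q i), Matrix.mul_assoc (Q' i),
        hLinv _ (hinv i), Matrix.mul_one, Matrix.mul_one] at e1
      have e2 : π i * (M π * (N π i * (h i : Matrix (Fin k) (Fin k) (ZMod 2)))) = 0 := by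
        rw [← Matrix.mul_assoc (M π), ← Matrix.mul_assoc (π i), ← Matrix.mul_assoc (π i),
          (hi π i).2, Matrix.zero_mul]
      have e3 : π' i * (M π * (N π i * (h i : Matrix (Fin k) (Fin k) (ZMod 2)))) = 0 := by
        rw [hP i, ← Matrix.mul_assoc (M π'), ← Matrix.mul_assoc (π' i), ← Matrix.mul_assoc (π' i),
          (hi π' i).2, Matrix.zero_mul]
      rw [e2, e3, zero_add, zero_add] at e1
      exact e1
    have hπ : π = π' := by
      funext i
      have e1 := h3 i
      rw [hQ i, hP i] at e1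
      exact add_right_cancel e1
    subst hπ
    have hg : g = g' := by
      apply Units.ext
      have e1 := congrArg (fun X => L π * X) h1
      beta_reduce at e1
      rwa [← Matrix.mul_assoc, ← Matrix.mul_assoc, hL, Matrix.one_mul, Matrix.one_mul] at e1
    subst hg
    have hh : h = h' := by
      funext i
      apply Units.ext
      have e1 := congrArg (fun X => L' π i * ((g : Matrix (Fin d) (Fin d) (ZMod 2)) * X)) (h2 i)
      beta_reduce at e1
      rwa [← Matrix.mul_assoc (g : Matrix (Fin d) (Fin d) (ZMod 2)), hgg,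
        ← Matrix.mul_assoc (g : Matrix (Fin d) (Fin d) (ZMod 2)), hgg, Matrix.one_mul,
        Matrix.one_mul, ← Matrix.mul_assoc, ← Matrix.mul_assoc, (hi π i).1, Matrix.one_mul,
        Matrix.one_mul] at e1
    subst hh
    have hQQ : Q = Q' := funext hQ
    subst hQQ
    rfl
  have hcard := Nat.card_le_card_of_injective Φ hΦ
  rw [Nat.card_prod, Nat.card_prod, Nat.card_prod, Nat.card_prod, Nat.card_prod, Nat.card_fun,
    Nat.card_fun, Nat.card_fun, card_mat, card_mat, card_mat, Nat.card_eq_fintype_card (α := Fin s),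
    Fintype.card_fin] at hcard
  have hpos1 : 0 < ((2 : ℕ) ^ (d * n)) ^ s := by positivity
  have hpos2 : 0 < ((2 : ℕ) ^ (d * k)) ^ s := by positivity
  have h4 : Nat.card (GL (Fin d) (ZMod 2)) * Nat.card (GL (Fin k) (ZMod 2)) ^ s ≤ 2 ^ (n * d) := by
    have h5 : (Nat.card (GL (Fin d) (ZMod 2)) * Nat.card (GL (Fin k) (ZMod 2)) ^ s) *
        (((2 : ℕ) ^ (d * n)) ^ s * ((2 : ℕ) ^ (d * k)) ^ s) ≤
        2 ^ (n * d) * (((2 : ℕ) ^ (d * n)) ^ s * ((2 : ℕ) ^ (d * k)) ^ s) := by
      calc _ = _ := by ring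
        _ ≤ _ := hcard
        _ = _ := by ring
    exact Nat.le_of_mul_le_mul_right h5 (Nat.mul_pos hpos1 hpos2)
  have h6 : (2 : ℕ) ^ (d * (d - 1) + s * (k * (k - 1))) ≤ 2 ^ (n * d) := by
    refine le_trans ?_ h4
    rw [pow_add]
    apply Nat.mul_le_mul (card_GL_ge d)
    rw [mul_comm s, pow_mul]
    exact Nat.pow_le_pow_left (card_GL_ge k) s
  exact (Nat.pow_le_pow_iff_right (by norm_num)).1 h6

/-- A hitting set for the `t`-dimensional subspaces of `𝔽₂ᵈ`; if the images under all `π i` of the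
`d`-dimensional subspace `V` miss it, all these images have dimension below `t`. -/
lemma frames {s d k n t : ℕ} (htk : k + t = d + 1) (A : Set (Fin d → ZMod 2))
    (hA : ∀ V : Submodule (ZMod 2) (Fin d → ZMod 2), finrank (ZMod 2) V = t → ∃ x ∈ A, x ∈ V)
    (π : Fin s → Matrix (Fin d) (Fin n) (ZMod 2)) (V : Submodule (ZMod 2) (Fin n → ZMod 2))
    (hV : finrank (ZMod 2) V = d) (hmiss : ∀ v ∈ V, ∀ i, (π i).mulVec v ∉ A) :
    ∃ (M : Matrix (Fin n) (Fin d) (ZMod 2)) (L : Matrix (Fin d) (Fin n) (ZMod 2))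
        (N : Fin s → Matrix (Fin d) (Fin k) (ZMod 2)) (L' : Fin s → Matrix (Fin k) (Fin d) (ZMod 2)),
        L * M = 1 ∧ ∀ i, L' i * N i = 1 ∧ π i * M * N i = 0 := by
  classical
  let b : Basis (Fin d) (ZMod 2) V := Module.finBasisOfFinrankEq (ZMod 2) V hV
  let M : Matrix (Fin n) (Fin d) (ZMod 2) := Matrix.of fun x c => (b c : Fin n → ZMod 2) x
  have hMcol : ∀ c, M.col c = (b c : Fin n → ZMod 2) := fun c => rfl
  have hli : LinearIndependent (ZMod 2) M.col := by
    have h1 : LinearIndependent (ZMod 2) (fun c => (b c : Fin n → ZMod 2)) :=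
      b.linearIndependent.map' V.subtype (Submodule.ker_subtype V)
    exact h1
  obtain ⟨L, hL⟩ := leftInv M hli
  have hMV : ∀ u : Fin d → ZMod 2, M.mulVec u ∈ V := by
    intro u
    have h1 : M.mulVec u = ∑ c, u c • (b c : Fin n → ZMod 2) := by
      funext x
      rw [Matrix.mulVec, dotProduct, Finset.sum_apply]
      apply Finset.sum_congr rfl
      intro c _
      simp [M, mul_comm]
    rw [h1]
    exact Submodule.sum_mem _ (fun c _ => Submodule.smul_mem _ _ (b c).2)
  have key : ∀ i, ∃ (N : Matrix (Fin d) (Fin k) (ZMod 2)) (L' : Matrix (Fin k) (Fin d) (ZMod 2)),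
      L' * N = 1 ∧ π i * M * N = 0 := by
    intro i
    let f : (Fin d → ZMod 2) →ₗ[ZMod 2] (Fin d → ZMod 2) := (π i * M).mulVecLin
    have hrange : finrank (ZMod 2) (LinearMap.range f) < t := by
      by_contra hge
      push Not at hge
      obtain ⟨w, hw⟩ := exists_linearIndependent_of_le_finrank hge
      have hw' : LinearIndependent (ZMod 2) (fun c => (w c : Fin d → ZMod 2)) :=
        hw.map' (LinearMap.range f).subtype (Submodule.ker_subtype _)
      obtain ⟨x, hxA, hx⟩ := hA (Submodule.span (ZMod 2)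
        (Set.range (fun c => (w c : Fin d → ZMod 2)))) (by
          rw [finrank_span_eq_card hw', Fintype.card_fin])
      have hx' : x ∈ LinearMap.range f := by
        refine (Submodule.span_le.2 ?_) hx
        rintro _ ⟨c, rfl⟩
        exact (w c).2
      obtain ⟨u, rfl⟩ := hx'
      apply hmiss (M.mulVec u) (hMV u) i
      rw [Matrix.mulVec_mulVec]
      exact hxA
    have hker : k ≤ finrank (ZMod 2) (LinearMap.ker f) := by
      have := LinearMap.finrank_range_add_finrank_ker f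
      rw [Module.finrank_fintype_fun_eq_card, Fintype.card_fin] at this
      omega
    obtain ⟨w, hw⟩ := exists_linearIndependent_of_le_finrank hker
    have hw' : LinearIndependent (ZMod 2) (fun c => (w c : Fin d → ZMod 2)) :=
      hw.map' (LinearMap.ker f).subtype (Submodule.ker_subtype _)
    let N : Matrix (Fin d) (Fin k) (ZMod 2) := Matrix.of fun x c => (w c : Fin d → ZMod 2) x
    obtain ⟨L', hL'⟩ := leftInv N hw'
    refine ⟨N, L', hL', ?_⟩
    ext x c
    have h1 := congrFun (LinearMap.mem_ker.1 (w c).2) x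
    exact h1
  choose N L' hN using key
  exact ⟨M, L, N, L', hL, hN⟩

end B5D39
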